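import Pool.Agent.Helper57_C2.Stmts
import Pool.Agent.Helper66_D2.AsmD2
import Pool.Agent.Helper66_DF.FinE
import Pool.Agent.Helper35_K9.CHQ
import Pool.Agent.Helper69_K9.Fmg
import Pool.Agent.Helper2_K9.PUG
import Pool.Agent.Helper57_K9.Gq9

/-! C2, row FIN: the final theorem. -/

open scoped BigOperators

noncomputable section

namespace Pool.Agent.PP.C2.H6

open Pool.Agent.Helper51_AWC Pool.Agent.Helper79_WRA Pool.Agent.PP Pool.Agent.PP.KF
open Pool.Agent.PP.K9

attribute [local instance] Ideal.Quotient.field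

section

variable {G : Type} [Group G] [Finite G] {F : Type} [Field F]

theorem card_mul_relIndex_ {A : Type} [Group A] {H K : Subgroup A} (h : H ≤ K) :
    Nat.card H * H.relIndex K = Nat.card K := by
  have h1 := Subgroup.card_mul_index (H.subgroupOf K)
  have h2 : Nat.card (H.subgroupOf K) = Nat.card H :=
    Nat.card_congr (Subgroup.subgroupOfEquivOfLe h).toEquiv
  rw [h2] at h1
  exact h1

theorem gd_mono {e : G → F} {P Q : Subgroup G} (h : P ≤ Q) (hQ : Gd e Q) : Gd e P := by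
  obtain ⟨g, hg, h0⟩ := hQ
  exact ⟨g, Subgroup.centralizer_le h hg, h0⟩

/-- a normal central `ℓ`-subgroup is contained in the subgroups of type `Tp` -/
theorem core_le {ℓ : ℕ} {e : G → F} {D : Subgroup G} (hD : Tp ℓ e D) {Z : Subgroup G}
    (hn : Z.Normal) (hZ : IsPGroup ℓ Z) (hc : Z ≤ Subgroup.center G) : Z ≤ D := by
  obtain ⟨g, hg, h0⟩ := hD.gd
  have h1 : D ⊔ Z ≤ Subgroup.centralizer ({g} : Set G) := by
    refine sup_le ?_ (hc.trans (Subgroup.center_le_centralizer _))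
    intro x hx
    rw [Subgroup.mem_centralizer_iff] at hg ⊢
    intro y hy
    rw [Set.mem_singleton_iff.1 hy]
    exact (hg x hx).symm
  have h2 : Gd e (D ⊔ Z) := by
    refine ⟨g, ?_, h0⟩
    rw [Subgroup.mem_centralizer_iff]
    intro x hx
    have := h1 hx
    rw [Subgroup.mem_centralizer_iff] at this
    exact (this g rfl).symm
  have h3 : Nat.card (D ⊔ Z : Subgroup G) ≤ Nat.card D :=
    hD.mx _ (IsPGroup.to_sup_of_normal_right hD.pg hZ) h2
  have h4 : D = D ⊔ Z := Subgroup.eq_of_le_of_card_ge le_sup_left h3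
  rw [h4]
  exact le_sup_right

end

section

variable {A B : Type} [Group A] [Finite A] [Group B] [Finite B] {F : Type} [Field F]

/-- the image of a subgroup of type `Tp` in a quotient by an `ℓ`-subgroup -/
theorem tp_push {ℓ : ℕ} [Fact ℓ.Prime] (hF : GoodF ℓ F) {p : A →* B}
    (hp : Function.Surjective p) (hk : IsPGroup ℓ p.ker) {e : A → F} (he : IsIdem e)
    {D : Subgroup A} (hD : Tp ℓ e D) (hkD : p.ker ≤ D) : Tp ℓ (H75.push p e) (D.map p) := by
  have hpos : 0 < Nat.card p.ker := Nat.card_pos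
  refine ⟨hD.pg.map _, (H02.pug ℓ F hF A B p hp hk e he _ hkD hD.pg).1 hD.gd, ?_⟩
  intro Q hQ hQb
  have h1 : Q = (Q.comap p).map p := (Subgroup.map_comap_eq_self_of_surjective hp Q).symm
  have h2 : IsPGroup ℓ (Q.comap p) := by
    obtain ⟨n, hn⟩ := (IsPGroup.iff_card).1 hQ
    obtain ⟨k, hk'⟩ := (IsPGroup.iff_card).1 hk
    exact IsPGroup.of_card (n := k + n) (by rw [H75.card_comap hp, hn, hk', pow_add])
  have h3 : p.ker ≤ Q.comap p := by
    intro x hx
    rw [Subgroup.mem_comap, MonoidHom.mem_ker.1 hx]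
    exact Q.one_mem
  rw [h1] at hQb
  have h4 := (H02.pug ℓ F hF A B p hp hk e he _ h3 h2).2 hQb
  have h6 := hD.mx _ h2 h4
  have h7 : Nat.card D = Nat.card p.ker * Nat.card (D.map p) := by
    rw [← H75.card_comap hp, Subgroup.comap_map_eq_self hkD]
  rw [H75.card_comap hp, h7] at h6
  exact Nat.le_of_mul_le_mul_left h6 hpos

/-- the alternating sum vanishes for the blocks with nontrivial cyclic defect groups -/
theorem yy_cyclic (ℓ : ℕ) [hℓ : Fact ℓ.Prime] (M : Ideal (integralClosure ℤ ℂ)) [M.IsMaximal]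
    (hM : (ℓ : integralClosure ℤ ℂ) ∈ M) {f : A → FF M} (hf : IsBlk f) {R : Subgroup A}
    (hR : Tp ℓ f R) (hne : R ≠ ⊥) (hc : IsCyclic R) : YY ℓ ⊤ f = 0 := by
  have hF : GoodF ℓ (FF M) := H50.fld ℓ hℓ.out M hM
  have hdvd : ℓ ∣ Nat.card R := by
    obtain ⟨n, hn⟩ := (IsPGroup.iff_card).1 hR.pg
    rw [hn]
    refine dvd_pow_self ℓ ?_
    rintro rfl
    rw [pow_zero] at hn
    exact hne (Subgroup.card_eq_one.1 hn)
  obtain ⟨x, hx⟩ := exists_prime_orderOf_dvd_card' (G := R) ℓ hdvd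
  have hox : orderOf (x : A) = ℓ := by rw [Subgroup.orderOf_coe, hx]
  have hzc : Nat.card (Subgroup.zpowers (x : A)) = ℓ := by rw [Nat.card_zpowers, hox]
  have hzg : Gd f (Subgroup.zpowers (x : A)) :=
    gd_mono ((Subgroup.zpowers_le).2 x.2) hR.gd
  have hpos : Pos ℓ f ⊤ := by
    intro y _ hy
    rw [inf_top_eq] at hy
    exact H35.nil_of_good hF hf hzc hzg hy
  refine CD2.Asm.d2a_ ℓ (FF M) hF A ⊤ inferInstance f hf.1 hpos
      ⟨f, hf.1, fun x hx => absurd (Subgroup.mem_top x) hx, hf.1.2, fun Q hQ hQp hbr => ?_⟩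
  have h1 : ∃ g ∈ Subgroup.centralizer (Q : Set A), f g ≠ 0 := by
    by_contra hcon
    push Not at hcon
    apply hbr
    funext t
    by_cases ht : t ∈ Subgroup.centralizer (Q : Set A)
    · rw [H66.br_of_mem ht]
      exact hcon t ht
    · rw [H66.br_of_not_mem ht]
      rfl
  obtain ⟨g, hg⟩ := (H69.fmg ℓ M hM A f hf R hR).1 Q hQp h1
  have e1 : R ≃* conjS g R := R.equivMapOfInjective _ (MulAut.conj g).injective
  have : IsCyclic (conjS g R) := isCyclic_of_surjective e1.toMonoidHom e1.surjective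
  exact isCyclic_of_injective (Subgroup.inclusion hg) (Subgroup.inclusion_injective hg)

/-- a noncyclic `ℓ`-subgroup with a cyclic subgroup of index at most `ℓ` -/
theorem tn_of {ℓ : ℕ} [hℓ : Fact ℓ.Prime] {R : Subgroup A} (hp : IsPGroup ℓ R)
    (hcomm : ∀ a ∈ R, ∀ b ∈ R, a * b = b * a) (hnc : ¬ IsCyclic R) {u : A} (hu : u ∈ R)
    (hi : (Subgroup.zpowers u).relIndex R ≤ ℓ) (h2 : Nat.card R ≠ ℓ ^ 2) :
    ∃ n, 2 ≤ n ∧ Tn ℓ n R := by
  obtain ⟨k, hk⟩ := (IsPGroup.iff_card).1 hp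
  have hle : Subgroup.zpowers u ≤ R := (Subgroup.zpowers_le).2 hu
  have hmul : Nat.card (Subgroup.zpowers u) * (Subgroup.zpowers u).relIndex R = Nat.card R :=
    card_mul_relIndex_ hle
  have hd : (Subgroup.zpowers u).relIndex R ∣ ℓ ^ k := by
    rw [← hk]
    exact Dvd.intro_left _ hmul
  obtain ⟨j, -, hj⟩ := (Nat.dvd_prime_pow hℓ.out).1 hd
  have hj0 : j ≠ 0 := by
    rintro rfl
    rw [pow_zero] at hj
    rw [hj, mul_one] at hmul
    have h3 : Subgroup.zpowers u = R := Subgroup.eq_of_le_of_card_ge hle hmul.ge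
    apply hnc
    rw [← h3]
    infer_instance
  have hj1 : j = 1 := by
    by_contra hj1
    have h4 : ℓ ^ 2 ≤ ℓ ^ j := Nat.pow_le_pow_right hℓ.out.pos (by omega)
    have h5 : ℓ < ℓ ^ 2 := by
      rw [pow_two]
      exact lt_mul_of_one_lt_left hℓ.out.pos hℓ.out.one_lt
    rw [hj] at hi
    omega
  rw [hj1, pow_one] at hj
  rw [hj, Nat.card_zpowers] at hmul
  -- the order of `u`
  have hdu : orderOf u ∣ ℓ ^ k := by
    rw [← hk, ← hmul]
    exact Dvd.intro _ rfl
  obtain ⟨n, -, hn⟩ := (Nat.dvd_prime_pow hℓ.out).1 hdu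
  have hcard : Nat.card R = ℓ ^ (n + 1) := by rw [← hmul, hn, pow_succ]
  refine ⟨n, ?_, hcomm, hcard, ⟨u, hu, hn⟩, hnc⟩
  by_contra hlt
  have h6 : n = 0 ∨ n = 1 := by omega
  rcases h6 with rfl | rfl
  · rw [zero_add, pow_one] at hcard
    exact hnc (isCyclic_of_prime_card hcard)
  · exact h2 hcard

end

/-- FIN -/
theorem fin (hAwn : AwnStmt) (hDtf : DtfStmt) (hPsn : PsnStmt) : FinC2Stmt := by
  intro ℓ hℓ M _ hM G _ _ hc χ hχ D hD hDZ hab u huD hidx h2
  have hF : GoodF ℓ (FF M) := H50.fld ℓ hℓ.out M hM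
  have hn := H75.opCore_normal (A := G) ℓ
  obtain ⟨e, he, h1, h3⟩ := H50.bid ℓ hℓ.out M hM G χ hχ
  have hTD : Tp ℓ e D := hDtf ℓ M hM G e he χ hχ h1 D hD
  set p : G →* G ⧸ opCore ℓ G := QuotientGroup.mk' (opCore ℓ G) with hp
  have hker : p.ker = opCore ℓ G := QuotientGroup.ker_mk' _
  have hsurj : Function.Surjective p := QuotientGroup.mk'_surjective (opCore ℓ G)
  have hZp : IsPGroup ℓ (opCore ℓ G) := H75.opCore_isPGroup hℓ.out
  have hkp : IsPGroup ℓ p.ker := by
    rw [hker]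
    exact hZp
  have hkc : p.ker ≤ Subgroup.center G := by
    rw [hker]
    exact hc
  have hZD : p.ker ≤ D := by
    rw [hker]
    exact core_le hTD hn hZp hc
  have heq := H75.altSum_central H20.nls H20.brm H63.smt H94.nch
    (H50.dic H20.ibn H20.nls H20.brm) hℓ.out M hM hF hsurj hker hkp hkc χ hχ e he h1 h3
  have hTR : Tp ℓ (H75.push p e) (D.map p) := tp_push hF hsurj hkp he.1 hTD hZD
  have hblk : IsBlk (H75.push p e) :=
    hPsn ℓ (FF M) hF G (G ⧸ opCore ℓ G) p hsurj hkp hkc e he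
  have hRne : D.map p ≠ ⊥ := by
    intro h4
    apply hDZ
    rw [← hker]
    exact (Subgroup.map_eq_bot_iff D).1 h4
  have hcR : Nat.card (D.map p) = (opCore ℓ G).relIndex D := by
    have h5 : Nat.card D = Nat.card p.ker * Nat.card (D.map p) := by
      rw [← H75.card_comap hsurj, Subgroup.comap_map_eq_self hZD]
    have h6 : Nat.card (opCore ℓ G) * (opCore ℓ G).relIndex D = Nat.card D :=
      card_mul_relIndex_ (by rw [← hker]; exact hZD)
    rw [hker, ← h6] at h5
    exact (Nat.eq_of_mul_eq_mul_left Nat.card_pos h5).symm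
  have h0 : YY ℓ (⊤ : Subgroup (G ⧸ opCore ℓ G)) (H75.push p e) = 0 := by
    by_cases hcyc : IsCyclic (D.map p)
    · exact yy_cyclic ℓ M hM hblk hTR hRne hcyc
    · have hcomm : ∀ a ∈ D.map p, ∀ b ∈ D.map p, a * b = b * a := by
        rintro a ⟨x, hx, rfl⟩ b ⟨y, hy, rfl⟩
        have h7 : p (x * y * x⁻¹ * y⁻¹) = 1 := by
          rw [← MonoidHom.mem_ker, hker]
          exact hab x hx y hy
        rw [map_mul, map_mul, map_mul, map_inv, map_inv, mul_inv_eq_one, mul_inv_eq_iff_eq_mul]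
          at h7
        exact h7
      have hidx' : (Subgroup.zpowers (p u)).relIndex (D.map p) ≤ ℓ := by
        rw [← Subgroup.relIndex_comap, ← MonoidHom.map_zpowers, Subgroup.comap_map_eq, hker,
          sup_comm]
        exact hidx
      obtain ⟨n, hn2, hTn⟩ := tn_of hTR.pg hcomm hcyc (Subgroup.mem_map_of_mem p huD) hidx'
        (by rw [hcR]; exact h2)
      exact hAwn ℓ M hM n hn2 (G ⧸ opCore ℓ G) (H75.push p e) hblk (D.map p) hTR hTn
  rw [h0, mul_zero] at heq
  rcases mul_eq_zero.1 heq with h | h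
  · exact absurd h (by exact_mod_cast (Nat.card_pos (α := G)).ne')
  · exact h

end Pool.Agent.PP.C2.H6
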