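import Pool.Agent.Helper57_C2.Stmts
import Pool.Agent.Helper6_K9.GRA

/-! C2, row GRA2. -/

open scoped BigOperators

noncomputable section

namespace Pool.Agent.PP.C2.H6

open Pool.Agent.PP.K9 Pool.Agent.PP.K9.H6

theorem gra2 : Gra2Stmt := by
  intro ℓ hp ι _ ζ hζ a δ hδ h1 h2 E hE
  classical
  have hpos := hp.out.pos
  set N : ZMod ℓ → ι → ℤ := fun x i => a i x.val - a i 0 with hNdef
  have hN : ∀ i, N 0 i = 0 := by intro i; simp [hNdef, ZMod.val_zero]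
  have hD : ∀ (j : (ZMod ℓ)ˣ) (i : ι), K9.H6.DD hζ N j i = δ (j : ZMod ℓ).val i := by
    intro j i
    have e1 : ∑ x : ZMod ℓ, ch hζ (x * (j : ZMod ℓ)) = 0 := by
      rw [ch_sum, if_neg j.ne_zero]
    have e2 : ∀ x : ZMod ℓ, ch hζ (x * (j : ZMod ℓ)) = ζ ^ (x.val * (j : ZMod ℓ).val) := by
      intro x
      rw [← ch_nat hζ (x.val * (j : ZMod ℓ).val), Nat.cast_mul, ZMod.natCast_zmod_val,
        ZMod.natCast_zmod_val]
    rw [hδ, ← sum_zmod (ℓ := ℓ) (fun s => (a i s : ℂ) * ζ ^ (s * (j : ZMod ℓ).val))]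
    have e3 : K9.H6.DD hζ N j i = ∑ x : ZMod ℓ, (a i x.val : ℂ) * ch hζ (x * (j : ZMod ℓ))
        - (a i 0 : ℂ) * ∑ x : ZMod ℓ, ch hζ (x * (j : ZMod ℓ)) := by
      unfold K9.H6.DD
      rw [Finset.mul_sum, ← Finset.sum_sub_distrib]
      refine Finset.sum_congr rfl fun x _ => ?_
      rw [hNdef]
      push_cast
      ring
    rw [e3, e1, mul_zero, sub_zero]
    exact Finset.sum_congr rfl fun x _ => by rw [e2]
  have hval : ∀ u : (ZMod ℓ)ˣ, (u : ZMod ℓ).val ∈ Finset.Ico 1 ℓ := by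
    intro u
    refine Finset.mem_Ico.mpr ⟨?_, ZMod.val_lt _⟩
    have : (u : ZMod ℓ).val ≠ 0 := fun hh => u.ne_zero ((ZMod.val_eq_zero _).mp hh)
    omega
  have hO : ∀ b u : (ZMod ℓ)ˣ, ∑ i, K9.H6.DD hζ N u i *
      starRingEnd ℂ (K9.H6.DD hζ N ((b : ZMod ℓ) * u) i) = if b ∈ K9.H6.SS N then (ℓ : ℂ) else 0 := by
    intro b u
    by_cases hb : b ∈ K9.H6.SS N
    · rw [if_pos hb, ← (h1 _ (hval u)).2]
      refine Finset.sum_congr rfl fun i _ => ?_
      rw [dd_mem hζ N b u hb, hD]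
    · rw [if_neg hb]
      have e1 : ∀ i, K9.H6.DD hζ N ((b : ZMod ℓ) * u) i = δ ((b * u : (ZMod ℓ)ˣ) : ZMod ℓ).val i := by
        intro i
        rw [← hD, Units.val_mul]
      rcases h2 _ (hval u) _ (hval (b * u)) with h | h
      · exact absurd (mem_dd hζ N hN b u (fun i => by rw [e1, ← h i, hD])) hb
      · rw [← h]
        exact Finset.sum_congr rfl fun i _ => by rw [e1, hD]
  have hG := gram hζ N hN hO
  -- the classes
  have hfin : Finite ((ZMod ℓ)ˣ ⧸ K9.H6.SS N) := inferInstance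
  set q : ((ZMod ℓ)ˣ ⧸ K9.H6.SS N) ≃ Fin (Nat.card ((ZMod ℓ)ˣ ⧸ K9.H6.SS N)) := Finite.equivFin _ with hq
  have hout : ∀ (u : (ZMod ℓ)ˣ) (i : ι),
      N (((QuotientGroup.mk u : (ZMod ℓ)ˣ ⧸ K9.H6.SS N).out : (ZMod ℓ)ˣ) : ZMod ℓ) i
        = N (u : ZMod ℓ) i := by
    intro u i
    obtain ⟨s, hs⟩ := QuotientGroup.mk_out_eq_mul (K9.H6.SS N) u
    rw [hs, Units.val_mul, mul_comm]
    exact s.2 _ _
  have hcard : Nat.card (ZMod ℓ)ˣ = ℓ - 1 := by
    rw [Nat.card_eq_fintype_card, ZMod.card_units_eq_totient, Nat.totient_prime hp.out]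
  -- not all zero
  have hne : ∀ i, ∃ u : (ZMod ℓ)ˣ, N (u : ZMod ℓ) i ≠ 0 := by
    intro i
    by_contra hcon
    push Not at hcon
    have h3 : K9.H6.DD hζ N ((1 : (ZMod ℓ)ˣ) : ZMod ℓ) i = 0 := by
      unfold K9.H6.DD
      refine Finset.sum_eq_zero fun x _ => ?_
      have h4 : N x i = 0 := by
        by_cases hx : x = 0
        · rw [hx, hN]
        · exact hcon (Units.mk0 x hx)
      rw [h4]
      push_cast
      ring
    rw [hD] at h3
    exact (h1 _ (hval 1)).1 i h3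
  -- the number `E`
  have : Fact (1 < ℓ) := ⟨hp.out.one_lt⟩
  have hone : ((1 : (ZMod ℓ)ˣ) : ZMod ℓ).val = 1 := by rw [Units.val_one, ZMod.val_one]
  have hmem : ∀ b : (ZMod ℓ)ˣ, b ∈ K9.H6.SS N ↔ ∀ i, δ (b : ZMod ℓ).val i = δ 1 i := by
    intro b
    constructor
    · intro hb i
      have h3 := dd_mem hζ N b 1 hb i
      have e1 : K9.H6.DD hζ N ((b : ZMod ℓ) * ((1 : (ZMod ℓ)ˣ) : ZMod ℓ)) i = δ (b : ZMod ℓ).val i := by
        rw [Units.val_one, mul_one, hD]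
      rw [e1, hD, hone] at h3
      exact h3
    · intro hb
      refine mem_dd hζ N hN b 1 fun i => ?_
      have e1 : K9.H6.DD hζ N ((b : ZMod ℓ) * ((1 : (ZMod ℓ)ˣ) : ZMod ℓ)) i = δ (b : ZMod ℓ).val i := by
        rw [Units.val_one, mul_one, hD]
      rw [e1, hD, hone]
      exact hb i
  have hES : Nat.card (K9.H6.SS N) = E := by
    rw [hE, Nat.card_eq_fintype_card, ← Fintype.card_coe]
    refine Fintype.card_congr (Equiv.ofBijective (fun b : K9.H6.SS N =>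
      (⟨((b : (ZMod ℓ)ˣ) : ZMod ℓ).val, Finset.mem_filter.mpr ⟨hval _, (hmem _).mp b.2⟩⟩ :
        {x // x ∈ (Finset.Ico 1 ℓ).filter (fun b => ∀ i, δ b i = δ 1 i)})) ⟨?_, ?_⟩)
    · intro b b' hbb
      have h3 := congrArg Subtype.val hbb
      exact Subtype.ext (Units.ext (ZMod.val_injective ℓ h3))
    · rintro ⟨s, hs⟩
      obtain ⟨hs1, hs2⟩ := Finset.mem_filter.mp hs
      obtain ⟨hs3, hs4⟩ := Finset.mem_Ico.mp hs1
      have hv : ((s : ZMod ℓ)).val = s := ZMod.val_cast_of_lt hs4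
      have hs0 : (s : ZMod ℓ) ≠ 0 := by
        intro hh
        rw [hh, ZMod.val_zero] at hv
        omega
      refine ⟨⟨Units.mk0 (s : ZMod ℓ) hs0, (hmem _).mpr ?_⟩, ?_⟩
      · rw [Units.val_mk0, hv]
        exact hs2
      · refine Subtype.ext ?_
        simp only [Units.val_mk0, hv]
  have hprod : Nat.card ((ZMod ℓ)ˣ ⧸ K9.H6.SS N) * Nat.card (K9.H6.SS N) = ℓ - 1 := by
    rw [← hcard]
    exact (Subgroup.card_eq_card_quotient_mul_card_subgroup (K9.H6.SS N)).symm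
  refine ⟨Nat.card ((ZMod ℓ)ˣ ⧸ K9.H6.SS N),
    fun j i => N (((q.symm j).out : (ZMod ℓ)ˣ) : ZMod ℓ) i,
    fun s => if h : (s : ZMod ℓ) ≠ 0 then
      q (QuotientGroup.mk (Units.mk0 (s : ZMod ℓ) h)) else q (QuotientGroup.mk 1),
    Nat.card_pos, ?_, ?_, ?_, ?_, ?_⟩
  · rw [← hES, mul_comm, hprod]
    have := hp.out.one_lt
    omega
  · intro s hs i
    obtain ⟨hs1, hs2⟩ := Finset.mem_Ico.mp hs
    have hv : ((s : ZMod ℓ)).val = s := ZMod.val_cast_of_lt hs2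
    have hs0 : (s : ZMod ℓ) ≠ 0 := by
      intro hh
      rw [hh, ZMod.val_zero] at hv
      omega
    simp only [hs0, ne_eq, not_false_eq_true, dif_pos, Equiv.symm_apply_apply]
    rw [hout, Units.val_mk0, hNdef]
    simp only [hv]
  · intro j
    set u : (ZMod ℓ)ˣ := (q.symm j).out with hu
    refine ⟨(u : ZMod ℓ).val, hval u, ?_⟩
    have e1 : (((u : ZMod ℓ).val : ℕ) : ZMod ℓ) = u := ZMod.natCast_zmod_val _
    have e2 : (((u : ZMod ℓ).val : ℕ) : ZMod ℓ) ≠ 0 := by rw [e1]; exact u.ne_zero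
    refine (dif_pos e2).trans ?_
    have e3 : Units.mk0 (((u : ZMod ℓ).val : ℕ) : ZMod ℓ) e2 = u := Units.ext (by
      rw [Units.val_mk0, e1])
    rw [e3, hu, QuotientGroup.out_eq', Equiv.apply_symm_apply]
  · intro j j'
    rw [hG, hES]
    congr 1
    have h3 : (((q.symm j).out : (ZMod ℓ)ˣ) * ((q.symm j').out : (ZMod ℓ)ˣ)⁻¹ ∈ K9.H6.SS N) ↔ j = j' := by
      rw [← (q.symm).injective.eq_iff]
      conv_rhs => rw [← QuotientGroup.out_eq' (q.symm j), ← QuotientGroup.out_eq' (q.symm j')]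
      rw [QuotientGroup.eq, ← (K9.H6.SS N).inv_mem_iff, mul_inv_rev, inv_inv, mul_comm]
    by_cases hj : j = j'
    · rw [if_pos hj, if_pos (h3.mpr hj)]
    · rw [if_neg hj, if_neg (fun hh => hj (h3.mp hh))]
  · intro i
    obtain ⟨u, hu⟩ := hne i
    refine ⟨q (QuotientGroup.mk u), ?_⟩
    simp only [Equiv.symm_apply_apply]
    rw [hout]
    exact hu

end Pool.Agent.PP.C2.H6
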